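import Mathlib

/-!
# THEOREM P+: components and splittings of a compact set

`split_of_comp`: if the connected component of `c` in the compact set `K` does not meet the closed set `O`, then `K` is the union of two disjoint closed sets, one of which contains `c` and the other one `K ∩ O`.
-/

set_option autoImplicit false

open Set Topology

namespace Pool.Agent.H42.PR

theorem split_of_comp {X : Type*} [TopologicalSpace X] [T2Space X] {K O : Set X} (hK : IsCompact K)
    (hO : IsClosed O) {c : X} (hc : c ∈ K) (h : Disjoint (connectedComponentIn K c) O) :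
    ∃ P1 P2 : Set X, IsClosed P1 ∧ IsClosed P2 ∧ Disjoint P1 P2 ∧ P1 ∪ P2 = K ∧ c ∈ P1 ∧
      K ∩ O ⊆ P2 := by
  classical
  have : CompactSpace K := isCompact_iff_compactSpace.1 hK
  have hO' : IsCompact (((↑) : K → X) ⁻¹' O) := (hO.preimage continuous_subtype_val).isCompact
  have h1 := connectedComponent_eq_iInter_isClopen (⟨c, hc⟩ : K)
  rw [connectedComponentIn_eq_image hc] at h
  have h2 : (((↑) : K → X) ⁻¹' O) ∩ ⋂ s : { s : Set K // IsClopen s ∧ (⟨c, hc⟩ : K) ∈ s }, s.1 = ∅ := by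
    rw [← h1]
    ext x
    simp only [mem_inter_iff, mem_empty_iff_false, iff_false]
    rintro ⟨hx1, hx2⟩
    exact Set.disjoint_left.1 h ⟨x, hx2, rfl⟩ hx1
  obtain ⟨u, hu⟩ := hO'.elim_finite_subfamily_closed
    (fun s : { s : Set K // IsClopen s ∧ (⟨c, hc⟩ : K) ∈ s } => s.1) (fun s => s.2.1.isClosed) h2
  obtain ⟨V, hV⟩ : ∃ V : Set K, V = ⋂ i ∈ u, i.1 := ⟨_, rfl⟩
  have hVc : IsClopen V := by
    rw [hV]
    exact isClopen_biInter_finset fun i _ => i.2.1
  have hcV : (⟨c, hc⟩ : K) ∈ V := by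
    rw [hV]
    simp only [mem_iInter]
    exact fun i _ => i.2.2
  refine ⟨((↑) : K → X) '' V, ((↑) : K → X) '' Vᶜ, ?_, ?_, ?_, ?_, ⟨_, hcV, rfl⟩, ?_⟩
  · exact (hVc.isClosed.isCompact.image continuous_subtype_val).isClosed
  · exact (hVc.compl.isClosed.isCompact.image continuous_subtype_val).isClosed
  · exact (disjoint_image_iff Subtype.val_injective).2 disjoint_compl_right
  · rw [← image_union, union_compl_self, image_univ, Subtype.range_coe]
  · rintro x ⟨hxK, hxO⟩
    refine ⟨⟨x, hxK⟩, ?_, rfl⟩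
    intro hxV
    have h3 : (⟨x, hxK⟩ : K) ∈ (((↑) : K → X) ⁻¹' O) ∩ ⋂ i ∈ u, i.1 := by
      rw [← hV]
      exact ⟨hxO, hxV⟩
    rw [hu] at h3
    exact h3

end Pool.Agent.H42.PR
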