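import Pool.Agent.H42.PR.SPD

/-!
# [H42 PR Geo] the open sets `T0 ⊆ G`, the markers, the cut-off function (point set topology, nearly MATHLIB ONLY)

PROOFS. `geo_sets`: `K = K1 ∪ {c0}` is compact, `O = {u | (u : OnePoint ℂ) ∉ P2}` is open and contains `K`. `IsCompact.exists_cthickening_subset_open`: `cthickening δ' K ⊆ O`, `δ' > 0`; `δ = δ' / 2`; `T0 = thickening δ K`, `G = thickening (2 δ) K`, `closure G ⊆ cthickening (2 δ) K ⊆ O` (`closure_thickening_subset_cthickening`). `G` is bounded (`K` is bounded): `G ⊆ ball 0 R`, `R > 0`.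
`geo_mark`: `frontier G` is compact (closed, bounded). For `ζ ∈ frontier G` (not in `PA`, `hoff`) `exists_off` (H80/AJ/Basic) gives `r > 0` with `Off PA ζ (4 r)`. Let `M = max 1 (MM R δ)`, `t = r / M`; by `htr` (`ζ`, `ε = t / 2`) there are `j, b'` with `b' ∈ ball ζ (t / 2)`, `f^j b' = x0`. For `ζ' ∈ ball ζ (t / 2)`: `‖ζ' - b'‖ < t`; `ball b' (MM R δ * t) ⊆ ball ζ (4 r)` (`MM R δ * t ≤ r`, `t / 2 ≤ r`), so `Off PA b' (MM R δ * t)`
(also true if `MM R δ * t ≤ 0`). Finite subcover of `frontier G` by the balls `ball ζ (t ζ / 2)` (`IsCompact.elim_nhds_subcover`), `b` = the finite set of the `b' ζ`.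
`geo_cut`: `exists_compact_between`: `K ⊆ interior L`, `L` compact, `L ⊆ T`. `exists_contMDiff...`: a smooth function with real values, `1` near `K`, `0` off `L` (`exists_contMDiffMap_one_nhds_of_subset_interior`, with `𝓘(ℝ, ℂ)` and `K` closed; `contMDiff_iff_contDiff`), composed with `Complex.ofRealCLM`: `χ`. `tsupport χ ⊆ L` (`closure_minimal`), so `HasCompactSupport χ`.
-/

set_option autoImplicit false

open Filter Topology Polynomial OnePoint Metric Set MeasureTheory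

namespace Pool.Agent.H42.PR

open Pool.Agent.H44.Fatou Pool.Agent.H32.BT Pool.Agent.H80.AJ Pool.Agent.H35.EX Pool.Agent.H61.TT
open Pool.Agent.H79.Eul Pool.Agent.H79.Par Pool.Agent.H47.NN Pool.Agent.H1.PU Pool.Agent.H71.Top
open Pool.Agent.H31.PP

theorem geo_sets {K1 : Set ℂ} (hK : IsCompact K1) {P2 : Set (OnePoint ℂ)} (hP : IsClosed P2)
    (hd : ∀ u ∈ K1, (u : OnePoint ℂ) ∉ P2) {c0 : ℂ} (hc0 : (c0 : OnePoint ℂ) ∉ P2) :
    ∃ (T0 G : Set ℂ) (δ R : ℝ), IsOpen T0 ∧ IsOpen G ∧ 0 < δ ∧ G ⊆ ball 0 R ∧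
      (∀ u ∈ T0, ball u δ ⊆ G) ∧ K1 ⊆ T0 ∧ c0 ∈ T0 ∧ ∀ u ∈ closure G, (u : OnePoint ℂ) ∉ P2 := by
  have hKc : IsCompact (insert c0 K1) := hK.insert c0
  have hO : IsOpen (((↑) : ℂ → OnePoint ℂ) ⁻¹' P2ᶜ) := hP.isOpen_compl.preimage continuous_coe
  have hKO : insert c0 K1 ⊆ ((↑) : ℂ → OnePoint ℂ) ⁻¹' P2ᶜ := by
    rintro u (rfl | hu)
    · exact hc0
    · exact hd u hu
  obtain ⟨δ', hδ', hcO⟩ := hKc.exists_cthickening_subset_open hO hKO
  obtain ⟨δ, hδ⟩ : ∃ δ, δ = δ' / 2 := ⟨_, rfl⟩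
  have hδ0 : 0 < δ := by rw [hδ]; positivity
  have h2 : δ + δ = δ' := by rw [hδ]; ring
  have hbd : Bornology.IsBounded (thickening (δ + δ) (insert c0 K1)) := hKc.isBounded.thickening
  obtain ⟨R, hR⟩ := hbd.subset_ball (0 : ℂ)
  refine ⟨thickening δ (insert c0 K1), thickening (δ + δ) (insert c0 K1), δ, R, isOpen_thickening,
    isOpen_thickening, hδ0, hR, ?_, ?_, ?_, ?_⟩
  · intro u hu v hv
    refine thickening_thickening_subset δ δ (insert c0 K1) ?_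
    rw [mem_thickening_iff]
    exact ⟨u, hu, hv⟩
  · exact (Set.subset_insert c0 K1).trans (self_subset_thickening hδ0 _)
  · exact self_subset_thickening hδ0 _ (Set.mem_insert c0 K1)
  · intro u hu
    have h3 := closure_thickening_subset_cthickening (δ + δ) (insert c0 K1) hu
    rw [h2] at h3
    exact hcO h3

theorem geo_mark {f : OnePoint ℂ → OnePoint ℂ} {PA : Set (OnePoint ℂ)} (hPA : IsClosed PA) {G : Set ℂ}
    {R : ℝ} (hGR : G ⊆ ball 0 R) (hoff : ∀ ζ ∈ frontier G, (ζ : OnePoint ℂ) ∉ PA) {x0 : OnePoint ℂ}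
    (htr : ∀ (z : ℂ) (ε : ℝ), 0 < ε → ∃ (m : ℕ) (u : ℂ), u ∈ ball z ε ∧ f^[m] (u : OnePoint ℂ) = x0)
    (δ : ℝ) : ∃ b : Finset ℂ, (∀ b' ∈ b, ∃ j : ℕ, f^[j] (b' : OnePoint ℂ) = x0) ∧
      ∀ ζ ∈ frontier G, ∃ b' ∈ b, ∃ t : ℝ, 0 < t ∧ ‖ζ - b'‖ < t ∧ Off PA b' (MM R δ * t) := by
  classical
  have hbd : Bornology.IsBounded G := isBounded_ball.subset hGR
  have hfr : IsCompact (frontier G) :=
    isCompact_of_isClosed_isBounded isClosed_frontier (hbd.closure.subset frontier_subset_closure)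
  have h1 : ∀ ζ : ℂ, ∃ (s t : ℝ) (b' : ℂ), ζ ∈ frontier G → 0 < s ∧ 0 < t ∧
      (∃ j : ℕ, f^[j] (b' : OnePoint ℂ) = x0) ∧ Off PA b' (MM R δ * t) ∧
      ∀ ζ' ∈ ball ζ s, ‖ζ' - b'‖ < t := by
    intro ζ
    by_cases hζ : ζ ∈ frontier G
    swap
    · exact ⟨0, 0, 0, fun h => absurd h hζ⟩
    obtain ⟨r, hr, hO⟩ := exists_off hPA (hoff ζ hζ)
    obtain ⟨M, hM⟩ : ∃ M, M = max 1 (MM R δ) := ⟨_, rfl⟩
    have hM1 : 1 ≤ M := by rw [hM]; exact le_max_left _ _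
    have hM2 : MM R δ ≤ M := by rw [hM]; exact le_max_right _ _
    have hM0 : 0 < M := by linarith
    obtain ⟨t, ht⟩ : ∃ t, t = r / M := ⟨_, rfl⟩
    have ht0 : 0 < t := by rw [ht]; positivity
    have htM : M * t = r := by rw [ht]; field_simp
    have htr' : t ≤ r := by nlinarith
    have hMt : MM R δ * t ≤ r := by nlinarith
    obtain ⟨j, b', hb', hj⟩ := htr ζ (t / 2) (by positivity)
    refine ⟨t / 2, t, b', fun _ => ⟨by positivity, ht0, ⟨j, hj⟩, ?_, ?_⟩⟩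
    · intro u hu
      apply hO
      rw [mem_ball] at hu hb' ⊢
      have := dist_triangle u b' ζ
      linarith
    · intro ζ' hζ'
      rw [mem_ball] at hζ' hb'
      rw [← dist_eq_norm]
      have := dist_triangle ζ' ζ b'
      rw [dist_comm ζ b'] at this
      linarith
  choose s t b h2 using h1
  obtain ⟨T, hT, hcov⟩ := hfr.elim_nhds_subcover (fun ζ => ball ζ (s ζ))
    (fun ζ hζ => ball_mem_nhds ζ (h2 ζ hζ).1)
  refine ⟨T.image b, ?_, ?_⟩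
  · intro b' hb'
    obtain ⟨ζ, hζ, rfl⟩ := Finset.mem_image.1 hb'
    exact (h2 ζ (hT ζ hζ)).2.2.1
  · intro ζ' hζ'
    obtain ⟨ζ, hζ, hζm⟩ := Set.mem_iUnion₂.1 (hcov hζ')
    obtain ⟨-, ht0, -, hO, hb⟩ := h2 ζ (hT ζ hζ)
    exact ⟨b ζ, Finset.mem_image_of_mem b hζ, t ζ, ht0, hb ζ' hζm, hO⟩

theorem geo_cut {K T : Set ℂ} (hK : IsCompact K) (hT : IsOpen T) (hKT : K ⊆ T) :
    ∃ χ : ℂ → ℂ, ContDiff ℝ 1 χ ∧ HasCompactSupport χ ∧ tsupport χ ⊆ T ∧
      ∀ u ∈ K, ∀ᶠ y in 𝓝 u, χ y = 1 := by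
  obtain ⟨L, hL, hKL, hLT⟩ := exists_compact_between hK hT hKT
  obtain ⟨f, hf1, hf0, -⟩ := exists_contMDiffMap_one_nhds_of_subset_interior (n := 1)
    (modelWithCornersSelf ℝ ℂ) hK.isClosed hKL
  have hfc : ContDiff ℝ 1 (fun x => f x) := contMDiff_iff_contDiff.1 f.contMDiff
  have hsub : tsupport (fun x => ((f x : ℝ) : ℂ)) ⊆ L := by
    refine closure_minimal ?_ hL.isClosed
    intro x hx
    by_contra hxL
    apply hx
    show ((f x : ℝ) : ℂ) = 0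
    rw [hf0 x hxL, Complex.ofReal_zero]
  refine ⟨fun x => ((f x : ℝ) : ℂ), ?_, ?_, hsub.trans hLT, ?_⟩
  · exact Complex.ofRealCLM.contDiff.comp hfc
  · exact HasCompactSupport.of_support_subset_isCompact hL ((subset_tsupport _).trans hsub)
  · intro u hu
    have h1 := mem_nhdsSet_iff_forall.1 hf1 u hu
    filter_upwards [h1] with y hy
    have hy' : f y = 1 := hy
    rw [hy', Complex.ofReal_one]

end Pool.Agent.H42.PR
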