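import Pool.Agent.H42.PR.SPD
import Pool.Agent.H42.PP.Res

/-!
# [H42 PR UdS] the function `U` on the base disc

PROOF. `B0 = ball c0 (3 s)`. `u_main` (H42/PP/Res) gives `U`. `insert c (SS P Q T) ⊆ LAM P Q c0 s` (`hcL`, `ss_lam`, H31/PP/Defs). `bd`: `u_main` (i), restricted from `ball c0 (6 s)`. `kb`: `ka_far`, `lam_far` (H42/PP/Base), restricted. `idn`: `u_main` (ii) with `S = {z ∈ insert c (SS P Q T), Q.eval z ≠ 0}`,
which is infinite: it contains the points `w_n`, `(w_n : OnePoint ℂ) = f^(n+1) c` (finite by `hc.ninf`, different by `hc.inf`, `w_0 = gg P Q c ∈ SS`, `ss_step`; `Q.eval w_n ≠ 0` as `f w_n ≠ ∞`), compare `lam_inf` (H1/PU/Xi). `cont`: `u_main` (iii) with `v = gg P Q c`, `hc.v0`, `hc.v1`.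
-/

set_option autoImplicit false

open Filter Topology Polynomial OnePoint Metric Set MeasureTheory

namespace Pool.Agent.H42.PR

open Pool.Agent.H44.Fatou Pool.Agent.H32.BT Pool.Agent.H80.AJ Pool.Agent.H35.EX Pool.Agent.H61.TT
open Pool.Agent.H79.Eul Pool.Agent.H79.Par Pool.Agent.H47.NN Pool.Agent.H1.PU Pool.Agent.H71.Top
open Pool.Agent.H31.PP

private theorem crt_qc {P Q : Polynomial ℂ} {c : ℂ} (hc : Crt P Q c) : Q.eval c ≠ 0 := by
  intro h0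
  apply hc.ninf 1 0
  rw [Function.iterate_one, rat_coe, h0]
  unfold pt
  rw [if_pos rfl]
  rfl

private theorem ss_orb {P Q : Polynomial ℂ} {c : ℂ} (hc : Crt P Q c) {T : Set ℂ}
    (hv : gg P Q c ∈ SS P Q T) : {z : ℂ | z ∈ SS P Q T ∧ Q.eval z ≠ 0}.Infinite := by
  have hqc := crt_qc hc
  have hy : ∀ n : ℕ, ∃ y : ℂ, (rat P Q)^[n + 1] (c : OnePoint ℂ) = (y : OnePoint ℂ) := by
    intro n
    have h1 := hc.ninf (n + 1) 0
    obtain ⟨y, hy⟩ := OnePoint.ne_infty_iff_exists.1 h1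
    exact ⟨y, hy.symm⟩
  choose y hy using hy
  have hinj : Function.Injective y := by
    intro m n hmn
    rcases lt_trichotomy m n with h1 | h1 | h1
    · exact absurd (by rw [hy m, hy n, hmn]) (hc.inf (m + 1) (n + 1) (by omega))
    · exact h1
    · exact absurd (by rw [hy m, hy n, hmn]) (hc.inf (n + 1) (m + 1) (by omega))
  have hQ0 : Q ≠ 0 := by
    rintro rfl
    exact hqc eval_zero
  have hfin : {z : ℂ | Q.eval z = 0}.Finite := by
    have h1 : {z : ℂ | Q.eval z = 0} = {z : ℂ | Q.IsRoot z} := rfl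
    rw [h1]
    exact Polynomial.finite_setOfPred_isRoot hQ0
  have hinf := (Set.infinite_range_of_injective hinj).sdiff hfin
  refine hinf.mono ?_
  rintro _ ⟨⟨n, rfl⟩, hn⟩
  refine ⟨?_, hn⟩
  intro k u hu he
  apply hv (k + n) u hu
  rw [← he, ← hy n, Function.iterate_succ_apply, Function.iterate_add_apply,
    rat_coe_of_ne hqc]
  rfl

theorem ud_s {d : ℕ} {P Q : Polynomial ℂ} {PA : Set (OnePoint ℂ)} {c c0 : ℂ} {s : ℝ} {A T : Set ℂ}
    (h : PSys d P Q PA c0 s) (hA : Nice P Q c0 s A) (hc : Crt P Q c) (hJ : JP P Q c0 univ)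
    (hcL : c ∈ LAM P Q c0 s) (hT : ball c0 (8 * s) ⊆ T) (hv : gg P Q c ∈ SS P Q T) :
    ∃ U : ℂ → ℂ → ℂ, UD d P Q (insert c (SS P Q T)) (ball c0 (3 * s)) (gg P Q c) U := by
  have hs := h.s0
  obtain ⟨U, hU1, hU2, hU3⟩ := Pool.Agent.H42.PB.u_main h hA hc hJ (mem_univ _)
  have hsub : insert c (SS P Q T) ⊆ LAM P Q c0 s := by
    rintro z (rfl | hz)
    · exact hcL
    · exact ss_lam hT hz
  have h36 : ball c0 (3 * s) ⊆ ball c0 (6 * s) := ball_subset_ball (by linarith)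
  refine ⟨U, isOpen_ball, measure_ball_lt_top.ne, ?_, ?_, ?_, ?_⟩
  · intro z hz
    obtain ⟨M, hM⟩ := hU1 z (hsub hz)
    exact ⟨hM.1.mono h36, M, fun y hy => hM.2 y (h36 hy)⟩
  · intro z hz
    obtain ⟨M, hM⟩ := Pool.Agent.H42.PB.ka_far (Pool.Agent.H42.PP.PS0.of h)
      (Pool.Agent.H42.PB.lam_far (hsub hz))
    exact ⟨hM.1.mono h36, M, fun y hy => hM.2 y (h36 hy)⟩
  · intro y hy
    have hinf : {z : ℂ | z ∈ insert c (SS P Q T) ∧ Q.eval z ≠ 0}.Infinite :=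
      (ss_orb hc hv).mono fun z hz => ⟨Or.inr hz.1, hz.2⟩
    obtain ⟨N, hN1, hN2⟩ := hU2 _ hinf (fun z hz => ⟨hsub hz.1, hz.2⟩) y (h36 hy)
    exact ⟨N, hN1, fun z hz hq => hN2 z ⟨hz, hq⟩⟩
  · intro ε hε
    obtain ⟨η, hη, h1⟩ := hU3 _ (ss_lam hT hv) hc.v0 hc.v1 ε hε
    exact ⟨η, hη, fun z hz hzv y hy => h1 z (hsub hz) hzv y (h36 hy)⟩

end Pool.Agent.H42.PR
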