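import Pool.Agent.H42.PR.VmS
import Pool.Agent.H42.PR.UdS
import Pool.Agent.H42.PR.Geo
import Pool.Agent.H42.PP.Wnd
import Pool.Agent.H31.PP.Mn
import Pool.Agent.H1.PU.Xi

/-!
# THEOREM P+, case J = sphere: the contradiction

`dsc_s`: the disc data at a point off `PA` (window lemma `win_sph`). `sp_false`: the planar data `SP` are contradictory (`pp_false`, H31/PP/Mn).
-/

set_option autoImplicit false

open Filter Topology Polynomial OnePoint Metric Set MeasureTheory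

namespace Pool.Agent.H42.PR

open Pool.Agent.H44.Fatou Pool.Agent.H32.BT Pool.Agent.H80.AJ Pool.Agent.H35.EX Pool.Agent.H61.TT
open Pool.Agent.H79.Eul Pool.Agent.H79.Par Pool.Agent.H47.NN Pool.Agent.H1.PU Pool.Agent.H71.Top
open Pool.Agent.H31.PP

theorem dsc_s {d : ℕ} {P Q : Polynomial ℂ} {PA : Set (OnePoint ℂ)} {c c0 : ℂ} {s0 : ℝ} {A T : Set ℂ}
    (h : PSys d P Q PA c0 s0) (hA : Nice P Q c0 s0 A) (hJ : JP P Q c0 univ) {x : ℂ}
    (hx : (x : OnePoint ℂ) ∉ PA) (hx0 : x ≠ c0) (hxc : x ≠ c) (hT : T ∈ 𝓝 x) :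
    ∃ s : ℝ, Dsc d P Q PA A (ball c0 (3 * s0)) T c x s := by
  have hs := h.s0
  obtain ⟨ρ, hρ, hb⟩ := Metric.mem_nhds_iff.1 hT
  have hd : 0 < ‖x - c‖ := norm_pos_iff.2 (sub_ne_zero.2 hxc)
  obtain ⟨r, hr, hr0, hP, ⟨x', r', N0, hW⟩, hland⟩ := Pool.Agent.H42.PP.win_sph
    (Pool.Agent.H42.PP.PS0.of h) hA.bA hA.As hx
    (fun ε hε => hJ.tr x (mem_univ _) c0 (mem_univ _) ε hε) hx0
    (ρ0 := min (ρ / 8) (‖x - c‖ / 8)) (by positivity)
  have h1 := hr0.trans (min_le_left _ _)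
  have h2 := hr0.trans (min_le_right _ _)
  have h68 : ball x (6 * r) ⊆ ball x (8 * r) := ball_subset_ball (by linarith)
  have h23 : ball c0 (2 * s0) ⊆ ball c0 (3 * s0) := ball_subset_ball (by linarith)
  refine ⟨r, hP, ?_, ?_, ?_, ?_⟩
  · exact Pool.Agent.H42.PP.mj_win hP hW (c' := c0) (R := 3 * s0)
      (fun p hp u hu => h23 (hland p hp (h68 hu)))
  · exact fun p hp u hu => h23 (hland p hp (h68 hu))
  · exact (ball_subset_ball (by linarith)).trans hb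
  · intro hc
    rw [mem_ball, dist_eq_norm, norm_sub_rev] at hc
    linarith

private theorem dbar_const {χ : ℂ → ℂ} {x a : ℂ} (h : ∀ᶠ y in 𝓝 x, χ y = a) :
    x ∉ tsupport (dbar1 χ) := by
  rw [notMem_tsupport_iff_eventuallyEq]
  filter_upwards [h.eventually_nhds] with y hy
  have h1 : χ =ᶠ[𝓝 y] fun _ => a := hy
  unfold dbar1
  rw [h1.fderiv_eq]
  simp

theorem sp_false {d : ℕ} {v : E d} {PA : Set (OnePoint ℂ)} {c c0 : ℂ} {K1 : Set ℂ}
    {P2 : Set (OnePoint ℂ)} {p : ℕ} {x : ℕ → ℂ} {m : ℂ} (h : SP v PA c c0 K1 P2 p x m) : False := by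
  classical
  have hK := KK_pos
  have hP2 : P2 ⊆ PA := by
    rw [h.pa]
    exact subset_union_right
  have hK1 : ∀ u ∈ K1, (u : OnePoint ℂ) ∈ PA := by
    intro u hu
    rw [h.pa]
    exact Or.inl ⟨u, hu, rfl⟩
  have hcPA := hK1 c h.cK
  have hqc : (pol v.2).eval c ≠ 0 := by
    intro h0
    apply h.crt.ninf 1 0
    rw [Function.iterate_one, rat_coe, h0]
    unfold pt
    rw [if_pos rfl]
    rfl
  have hgc : rat (pol v.1) (pol v.2) (c : OnePoint ℂ) =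
      ((gg (pol v.1) (pol v.2) c : ℂ) : OnePoint ℂ) := rat_coe_of_ne hqc
  have hvn : ∀ n : ℕ, (rat (pol v.1) (pol v.2))^[n]
      ((gg (pol v.1) (pol v.2) c : ℂ) : OnePoint ℂ) ∈ P2 := by
    intro n
    have h1 := h.orb (n + 1) (by omega)
    rwa [Function.iterate_succ_apply, hgc] at h1
  have hv0 : ((gg (pol v.1) (pol v.2) c : ℂ) : OnePoint ℂ) ∈ P2 := hvn 0
  obtain ⟨T0, G, δ, R, hT0o, hGo, hδ, hGR, hδT, hKT, hcT, hGP⟩ :=
    geo_sets h.K1c h.P2c h.dis (fun h1 => h.c0PA (hP2 h1))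
  have hTG : T0 ⊆ G := fun u hu => hδT u hu (mem_ball_self hδ)
  have hfr : ∀ ζ ∈ frontier G, (ζ : OnePoint ℂ) ∉ PA := by
    intro ζ hζ h1
    rw [h.pa] at h1
    rcases h1 with ⟨u, hu, he⟩ | h1
    · have h2 : u = ζ := OnePoint.coe_injective he
      rw [h2] at hu
      exact hζ.2 (by rw [hGo.interior_eq]; exact hTG (hKT hu))
    · exact hGP ζ (frontier_subset_closure hζ) h1
  obtain ⟨b, hb, hbf⟩ := geo_mark h.sys.closed hGR hfr (f := rat (pol v.1) (pol v.2))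
    (x0 := ((x 0 : ℂ) : OnePoint ℂ))
    (fun z ε hε => h.jp.tr z (mem_univ _) _ (mem_univ _) ε hε) δ
  -- the orbits of the markers
  obtain ⟨F, hF⟩ : ∃ F : Set ℂ, F = {u : ℂ | ∃ b' ∈ b, ∃ i : ℕ,
    (rat (pol v.1) (pol v.2))^[i] (b' : OnePoint ℂ) = (u : OnePoint ℂ)} := ⟨_, rfl⟩
  have hFf : F.Finite := by
    have h1 : ∀ b' ∈ b, {u : ℂ | ∃ i : ℕ,
        (rat (pol v.1) (pol v.2))^[i] (b' : OnePoint ℂ) = (u : OnePoint ℂ)}.Finite := by
      intro b' hb'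
      obtain ⟨j, hj⟩ := hb b' hb'
      obtain ⟨y, -, -, -, hy, -, hfin⟩ := orb_b h hj
      refine hfin.subset ?_
      rintro u ⟨i, hi⟩
      rw [hy i] at hi
      exact ⟨i, OnePoint.coe_injective hi⟩
    have h2 : F = ⋃ b' ∈ b, {u : ℂ | ∃ i : ℕ,
        (rat (pol v.1) (pol v.2))^[i] (b' : OnePoint ℂ) = (u : OnePoint ℂ)} := by
      rw [hF]
      ext u
      simp
    rw [h2]
    exact b.finite_toSet.biUnion fun b' hb' => h1 b' hb'
  have hFo : ∀ b' ∈ b, ∀ i : ℕ, (rat (pol v.1) (pol v.2))^[i] (b' : OnePoint ℂ) ∉ PA := by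
    intro b' hb' i
    obtain ⟨j, hj⟩ := hb b' hb'
    obtain ⟨y, -, -, -, hy, hyPA, -⟩ := orb_b h hj
    rw [hy i]
    exact hyPA i
  obtain ⟨T, hT⟩ : ∃ T : Set ℂ, T = T0 \ F := ⟨_, rfl⟩
  have hTo : IsOpen T := by
    rw [hT]
    exact hT0o.sdiff hFf.isClosed
  have hTT : T ⊆ T0 := by
    rw [hT]
    exact sdiff_subset
  have hTG' : T ⊆ G := hTT.trans hTG
  have hTc : T ⊆ closure G := hTG'.trans subset_closure
  have hK1T : K1 ⊆ T := by
    intro u hu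
    rw [hT]
    refine ⟨hKT hu, ?_⟩
    rw [hF]
    rintro ⟨b', hb', i, hi⟩
    apply hFo b' hb' i
    rw [hi]
    exact hK1 u hu
  have hc0T : c0 ∈ T := by
    rw [hT]
    refine ⟨hcT, ?_⟩
    rw [hF]
    rintro ⟨b', hb', i, hi⟩
    apply hFo b' hb' (i + 1)
    rw [Function.iterate_succ_apply', hi]
    exact h.fc0
  -- the base disc
  obtain ⟨r, hr, hoff⟩ := exists_off h.sys.closed h.c0PA
  obtain ⟨ρ, hρ, hρT⟩ := Metric.isOpen_iff.1 hTo c0 hc0T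
  obtain ⟨s1, hs1, hs1e⟩ : ∃ s1 : ℝ, 0 < s1 ∧ rho s1 = 4 * r := by
    refine ⟨4 * r / (131072 * KK), by positivity, ?_⟩
    unfold rho
    field_simp
  have hB1 : PSys d (pol v.1) (pol v.2) PA c0 s1 :=
    ⟨h.sys, h.rd, hP2 h.i0, hP2 h.i1, h.fc0, hs1, by rw [hs1e]; exact hoff⟩
  obtain ⟨s, hs, hss, hsρ⟩ : ∃ s : ℝ, 0 < s ∧ s ≤ s1 ∧ 8 * s ≤ ρ := by
    refine ⟨min s1 (ρ / 8), lt_min hs1 (by positivity), min_le_left _ _, ?_⟩
    have := min_le_right s1 (ρ / 8)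
    linarith
  have hB : PSys d (pol v.1) (pol v.2) PA c0 s := hB1.mono hs hss
  have h8T : ball c0 (8 * s) ⊆ T := (ball_subset_ball hsρ).trans hρT
  have hA := Pool.Agent.H42.PB.nice_NA hB
  have hcL : c ∈ LAM (pol v.1) (pol v.2) c0 s := pa_lam hB hcPA
  have hvS : gg (pol v.1) (pol v.2) c ∈ SS (pol v.1) (pol v.2) T := by
    intro n u hu he
    apply hGP u (hTc hu)
    rw [← he]
    exact hvn n
  obtain ⟨U, hU⟩ := ud_s hB hA h.crt h.jp hcL h8T hvS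
  -- the cut-off function
  obtain ⟨χ, hχ1, hχ2, hχ3, hχ4⟩ := geo_cut (K := insert c0 K1) (T := T) (h.K1c.insert c0) hTo
    (by rintro u (rfl | hu); exacts [hc0T, hK1T hu])
  have hdχ : ∀ y ∈ tsupport (dbar1 χ), y ∈ T ∧ y ≠ c0 ∧ y ∉ K1 := by
    intro y hy
    refine ⟨?_, ?_, ?_⟩
    · by_contra hyT
      have h1 : y ∉ tsupport χ := fun h1 => hyT (hχ3 h1)
      rw [notMem_tsupport_iff_eventuallyEq] at h1
      exact dbar_const (a := 0) h1 hy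
    · rintro rfl
      exact dbar_const (hχ4 _ (mem_insert _ _)) hy
    · intro h1
      exact dbar_const (hχ4 y (mem_insert_of_mem _ h1)) hy
  have hdPA : ∀ y ∈ tsupport (dbar1 χ), (y : OnePoint ℂ) ∉ PA := by
    intro y hy h1
    obtain ⟨h2, -, h4⟩ := hdχ y hy
    rw [h.pa] at h1
    rcases h1 with ⟨u, hu, he⟩ | h1
    · have h5 : u = y := OnePoint.coe_injective he
      rw [h5] at hu
      exact h4 hu
    · exact hGP y (hTc h2) h1
  have hbS : ∀ b' ∈ b, b' ∈ SS (pol v.1) (pol v.2) T := by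
    intro b' hb' n u hu he
    rw [hT] at hu
    apply hu.2
    rw [hF]
    exact ⟨b', hb', n, he⟩
  refine pp_false (v := v) (PA := PA) (c := c) (A := NA (pol v.1) (pol v.2) c0 s)
    (B0 := ball c0 (3 * s)) (T := T) (U := U) (χ := χ) (b := b)
    ⟨h.rd, h.sys, hP2 h.i0, hP2 h.i1, h.crt, hP2 hv0, hvS,
      ⟨hχ1, hχ2, hχ3, hχ4 c (mem_insert_of_mem _ h.cK), hdPA⟩, fun h1 => hGP 0 (hTc h1) h.i0,
      fun h1 => hGP 1 (hTc h1) h.i1, ?_, hU, fun b' hb' => hFo b' hb' 0, ?_, ?_⟩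
  · intro y hy
    obtain ⟨h2, h3, h4⟩ := hdχ y hy
    exact dsc_s hB hA h.jp (hdPA y hy) h3 (fun h5 => h4 (h5 ▸ h.cK)) (hTo.mem_nhds h2)
  · refine vee_geo h.sys h.rd (hP2 h.i0) (hP2 h.i1) (hP2 hv0) hGo hGR hδ
      (fun u hu => hδT u (hTT hu)) ?_ ?_ hbf hbS
    · intro n u hu he
      apply hGP u hu
      rw [← he]
      exact hvn n
    · intro ε hε
      obtain ⟨n, u, hu, hn⟩ := h.jp.tr (gg (pol v.1) (pol v.2) c) (mem_univ _) (c : OnePoint ℂ)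
        (mem_univ _) ε hε
      exact ⟨u, by rw [← dist_eq_norm]; exact mem_ball.1 hu, n, c, subset_closure (hTG (hKT h.cK)), hn⟩
  · intro b' hb'
    obtain ⟨j, hj⟩ := hb b' hb'
    exact vm_s h (fun a ha hq => ss_step _ _ _ ha hq) (hbS b' hb') hj

end Pool.Agent.H42.PR
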