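import Pool.Agent.H42.PR.Red
import Pool.Agent.H42.PR.Fin

/-!
# THEOREM P+, case J = sphere

`sph_up`: if the Julia set is the sphere and the post-critical set is the union of two disjoint closed sets `P1`, `P2` with the critical point `c` in `P1` and its forward orbit in `P2`, then there are maps with more attracted critical points near `v` (`Up v`).
-/

set_option autoImplicit false

open Filter Topology Polynomial Metric Set

namespace Pool.Agent.H42.PR

open Pool.Agent.H44.Fatou Pool.Agent.H32.BT Pool.Agent.H79.Eul Pool.Agent.H79.Par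
open Pool.Agent.H35.EX Pool.Agent.H44.RR Pool.Agent.H56.HR Pool.Agent.H44.RC Pool.Agent.H47.RJ
open Pool.Agent.H47.NM Pool.Agent.H47.NN Pool.Agent.H44.ND Pool.Agent.H79.ES Pool.Agent.H44.RG
open Pool.Agent.H44.CP Pool.Agent.H80.AJ Pool.Agent.H47.PS

variable {d : ℕ} {v : E d}

theorem sph_up (hd : 2 ≤ d) (hcop : IsCoprime (pol v.1) (pol v.2))
    (hdeg : max (pol v.1).natDegree (pol v.2).natDegree = d) {c : OnePoint ℂ}
    (hc : IsCrit (Rf v) c) (hJ : JS (Rf v) = univ) {P1 P2 : Set (OnePoint ℂ)} (h1 : IsClosed P1)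
    (h2 : IsClosed P2) (h12 : Disjoint P1 P2) (hun : P1 ∪ P2 = PC (Rf v)) (hc1 : c ∈ P1)
    (hc2 : ∀ n : ℕ, 1 ≤ n → (Rf v)^[n] c ∈ P2) : Up v := by
  by_contra hup
  obtain ⟨w, PA, c1, c0, K1, P2', p, x, m, h⟩ := red_sph hd hcop hdeg hup hc hJ h1 h2 h12 hun hc1 hc2
  exact sp_false h

end Pool.Agent.H42.PR
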