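import Pool.Agent.H42.PR.SPD
import Pool.Agent.H47.PS.RED
import Pool.Agent.H64.PC.VB6
import Pool.Agent.H44.NR.Pdj

/-!
# [H42 PR Red] the reduction to the planar data, J = sphere

PROOF. Adapt the proof of `red` (H47/PS/RED.lean; its lemmas `Orb`, `orb_*`, `per_mul`, `crit_nper`, `mk_cyc` can be cited) and of `pr_sph` (H47/PS/FIN). `f = Rf v`, `hJc : c ∈ JS f` by `hJ`; `hinf := not_pre hd hcop hdeg hup hc hJc`.
(1) `PC f ≠ univ`: `P1`, `P2` are closed, disjoint and nonempty (`c ∈ P1`, `f c ∈ P2`), `P1 ∪ P2 = PC f`, and the sphere is connected (`isPreconnected_univ`, `PreconnectedSpace (OnePoint ℂ)`). So `(PC f)ᶜ` is open and nonempty; for `F` finite `(F ∪ PC f)ᶜ` is open and nonempty (a finite set has empty interior: `(PC f)ᶜ` is infinite, no isolated points; or work in the plane).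
(2) `next`: for `F` finite there is a periodic point `p ∉ F ∪ PC f`, `p ∈ JS f` (all points), `f^[N] p = p`, `1 ≤ N`: `per_dense` (H44/NR/Pdj, black box) with `U = (F ∪ PC f)ᶜ`. The condition `c ∉ F` of `red` is not needed. Take `p1, ..., p5` as in `red` (`F` = the union of the previous orbits). The orbit of `p_i` is off `PC f` (`orb_back`, `pc_inv`), so it does not contain `c ∈ P1 ⊆ PC f`.
(3) chart `ch_three`: `p1, p2, p3 ↦ 0, 1, ∞`; `x` = cycle of `p4`, the three cycles for `vb` are those of `p1, p2, p5` (as in `red`, `pr_sph`: `Pool.Agent.H64.PC.vb hd hcop1 hdeg1 hup1 c4 k4 m4 ...` gives `VB (L v) (x 0)`).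
(4) `B = PC f ∪ Orb f p1 ∪ Orb f p2 ∪ Orb f p3`, `PA = φ '' B` (`Sys0` as in `red`); `P2' = φ '' (P2 ∪ Orb f p1 ∪ Orb f p2 ∪ Orb f p3)` (closed), `K1 = {u : ℂ | (u : OnePoint ℂ) ∈ φ '' P1}`: `∞ = φ p3 ∉ φ '' P1` (orbits are off `PC f`), so `φ '' P1 = coe '' K1` and `K1` is compact (`φ '' P1` is closed in a compact space; `isOpenEmbedding_coe`, `IsEmbedding.isCompact_iff` or `OnePoint.isClosed_image_coe`). `dis`: `h12` and the orbits are off `PC f`. `orb`: `hc2`, `iter_conj`. `crt`: as in `red`.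
(5) `c0`: `B ≠ univ` (by (1), with the orbits), pick `u ∉ B`; `Bᶜ` is open, so some `u' ∉ B` and `n` have `f^[n] u' = p1 ∈ B` (`jp_of`/`jp_cov`, H1/PU/Jpl, applied in the chart to a disc, or `H47/RJ` directly; J = univ). `Nat.find`: the first `n` with `f^[n] u' ∈ B` is `≥ 1`; `c0' = f^[n-1] u' ∉ B`, `f c0' ∈ B`. `φ c0'` is finite because `∞ = φ p3 ∈ φ '' B`: `c0`.
`jp`: `jp_of` for `L v` with `JS (Rf (L v)) = univ` (`fs_conj`, as `hJS` in `red`).
-/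

set_option autoImplicit false

open Filter Topology Polynomial Metric Set

namespace Pool.Agent.H42.PR

open Pool.Agent.H44.Fatou Pool.Agent.H32.BT Pool.Agent.H79.Eul Pool.Agent.H79.Par
open Pool.Agent.H35.EX Pool.Agent.H44.RR Pool.Agent.H56.HR Pool.Agent.H44.RC Pool.Agent.H47.RJ
open Pool.Agent.H47.NM Pool.Agent.H47.NN Pool.Agent.H44.ND Pool.Agent.H79.ES Pool.Agent.H44.RG
open Pool.Agent.H44.CP Pool.Agent.H80.AJ Pool.Agent.H47.PS

variable {d : ℕ} {v : E d}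

theorem red_sph (hd : 2 ≤ d) (hcop : IsCoprime (pol v.1) (pol v.2))
    (hdeg : max (pol v.1).natDegree (pol v.2).natDegree = d) (hup : ¬ Up v) {c : OnePoint ℂ}
    (hc : IsCrit (Rf v) c) (hJ : JS (Rf v) = univ) {P1 P2 : Set (OnePoint ℂ)} (h1 : IsClosed P1)
    (h2 : IsClosed P2) (h12 : Disjoint P1 P2) (hun : P1 ∪ P2 = PC (Rf v)) (hc1 : c ∈ P1)
    (hc2 : ∀ n : ℕ, 1 ≤ n → (Rf v)^[n] c ∈ P2) :
    ∃ (w : E d) (PA : Set (OnePoint ℂ)) (c1 c0 : ℂ) (K1 : Set ℂ) (P2' : Set (OnePoint ℂ)) (p : ℕ)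
      (x : ℕ → ℂ) (m : ℂ), SP w PA c1 c0 K1 P2' p x m := by
  have hrd0 : Pool.Agent.H61.TT.RatD d (pol v.1) (pol v.2) := ⟨hd, hcop, hdeg⟩
  have hJc : c ∈ JS (Rf v) := hJ ▸ mem_univ c
  have hinf := not_pre hd hcop hdeg hup hc hJc
  have hf : Continuous (Rf v) := rat_continuous hcop
  have hper : ∀ U : Set (OnePoint ℂ), IsOpen U → U.Nonempty →
      ∃ p ∈ U, ∃ N : ℕ, 1 ≤ N ∧ (Rf v)^[N] p = p := by
    rintro U hU ⟨x, hx⟩
    exact Pool.Agent.H44.NR.per_dense hd hcop hdeg (hJ ▸ mem_univ x) (hU.mem_nhds hx)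
  have hcov : ∀ U : Set (OnePoint ℂ), IsOpen U → U.Nonempty → ∀ x : OnePoint ℂ,
      ∃ (m : ℕ) (b : OnePoint ℂ), b ∈ U ∧ (Rf v)^[m] b = x := by
    rintro U hU ⟨y, hy⟩ x
    exact Pool.Agent.H1.PU.jp_cov hrd0 hU ⟨y, hy, hJ ▸ mem_univ y⟩ (hJ ▸ mem_univ x)
  obtain ⟨f, hfd⟩ : ∃ f, f = Rf v := ⟨_, rfl⟩
  rw [← hfd] at hinf hc hJ hf hper hcov hun hc2
  have hJa : ∀ x, x ∈ JS f := fun x => hJ ▸ mem_univ x
  -- the post-critical set
  have hPCn : (PC f)ᶜ.Nonempty := by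
    rw [nonempty_compl]
    intro h
    rw [← hun] at h
    have h3 : P1ᶜ = P2 := by
      ext y
      constructor
      · intro hy
        rcases (h ▸ mem_univ y : y ∈ P1 ∪ P2) with h4 | h4
        · exact absurd h4 hy
        · exact h4
      · exact fun hy hy1 => disjoint_left.1 h12 hy1 hy
    have h4 : IsClopen P1 := ⟨h1, isClosed_compl_iff.1 (h3.symm ▸ h2)⟩
    rcases isClopen_iff.1 h4 with h5 | h5
    · rw [h5] at hc1
      exact hc1
    · have h6 := hc2 1 le_rfl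
      rw [← h3, h5, compl_univ] at h6
      exact h6
  have hne : ∀ F : Set (OnePoint ℂ), F.Finite → (F ∪ PC f)ᶜ.Nonempty := by
    intro F hF
    obtain ⟨x, hx⟩ := hPCn
    have h3 : ((PC f)ᶜ).Infinite := infinite_of_mem_nhds x ((pc_closed f).isOpen_compl.mem_nhds hx)
    obtain ⟨y, hy, hyF⟩ := (h3.sdiff hF).nonempty
    exact ⟨y, by
      rintro (h | h)
      · exact hyF h
      · exact hy h⟩
  have next : ∀ F : Set (OnePoint ℂ), F.Finite → ∃ (p : OnePoint ℂ) (N : ℕ), p ∉ PC f ∧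
      p ∉ F ∧ p ∈ JS f ∧ 1 ≤ N ∧ f^[N] p = p := by
    intro F hF
    obtain ⟨p, hpU, N, hN, hpN⟩ := hper _ (hF.isClosed.union (pc_closed f)).isOpen_compl (hne F hF)
    exact ⟨p, N, fun h => hpU (Or.inr h), fun h => hpU (Or.inl h), hJa p, hN, hpN⟩
  have hcO : ∀ (p : OnePoint ℂ) (N : ℕ), 1 ≤ N → f^[N] p = p → c ∉ Orb f p := by
    rintro p N hN hpN ⟨i, hi⟩
    exact crit_nper hN hpN hinf i 0 hi.symm
  obtain ⟨p1, N1, a1, -, b1, c1, e1⟩ := next ∅ finite_empty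
  obtain ⟨p2, N2, a2, g2, b2, c2, e2⟩ := next (Orb f p1) (orb_fin c1 e1)
  obtain ⟨p3, N3, a3, g3, b3, c3, e3⟩ := next (Orb f p1 ∪ Orb f p2)
    ((orb_fin c1 e1).union (orb_fin c2 e2))
  obtain ⟨p4, N4, a4, g4, b4, c4, e4⟩ := next (Orb f p1 ∪ Orb f p2 ∪ Orb f p3)
    (((orb_fin c1 e1).union (orb_fin c2 e2)).union (orb_fin c3 e3))
  obtain ⟨p5, N5, a5, g5, b5, c5, e5⟩ := next (Orb f p1 ∪ Orb f p2 ∪ Orb f p3 ∪ Orb f p4)
    ((((orb_fin c1 e1).union (orb_fin c2 e2)).union (orb_fin c3 e3)).union (orb_fin c4 e4))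
  have n21 : p2 ∉ Orb f p1 := g2
  have n31 : p3 ∉ Orb f p1 := fun h => g3 (Or.inl h)
  have n32 : p3 ∉ Orb f p2 := fun h => g3 (Or.inr h)
  have n41 : p4 ∉ Orb f p1 := fun h => g4 (Or.inl (Or.inl h))
  have n42 : p4 ∉ Orb f p2 := fun h => g4 (Or.inl (Or.inr h))
  have n43 : p4 ∉ Orb f p3 := fun h => g4 (Or.inr h)
  have n51 : p5 ∉ Orb f p1 := fun h => g5 (Or.inl (Or.inl (Or.inl h)))
  have n52 : p5 ∉ Orb f p2 := fun h => g5 (Or.inl (Or.inl (Or.inr h)))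
  have n53 : p5 ∉ Orb f p3 := fun h => g5 (Or.inl (Or.inr h))
  have n54 : p5 ∉ Orb f p4 := fun h => g5 (Or.inr h)
  -- symmetric versions
  have sym : ∀ {p q : OnePoint ℂ} {N M : ℕ}, 1 ≤ N → f^[N] p = p → 1 ≤ M → f^[M] q = q →
      q ∉ Orb f p → p ∉ Orb f q := by
    rintro p q N M hN hp hM hq h ⟨i, hi⟩
    apply h
    obtain ⟨j, hj⟩ := orb_back hM hq i
    exact ⟨j, by rw [← hi]; exact hj⟩
  have ne_of : ∀ {p q : OnePoint ℂ}, p ∉ Orb f q → p ≠ q := by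
    rintro p q h rfl
    exact h (orb_self f p)
  -- the orbits are off the post-critical set
  have hoffP : ∀ {p : OnePoint ℂ} {N : ℕ}, 1 ≤ N → f^[N] p = p → p ∉ PC f → ∀ y ∈ Orb f p, y ∉ PC f := by
    rintro p N hN hpN hp y ⟨i, rfl⟩ hy
    obtain ⟨j, hj⟩ := orb_back hN hpN i
    apply hp
    rw [← hj]
    exact iter_mem (fun x hx => pc_inv hf hx) hy j
  -- the chart
  obtain ⟨L, G, φ, K, hch, -, f0, f1, fi⟩ := ch_three (d := d) hd (ne_of n21).symm (ne_of n31).symm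
    (ne_of n32).symm
  obtain ⟨hcop1, hdeg1, hφ⟩ := hch.conj v hcop hdeg
  rw [← hfd] at hφ
  have hφn : ∀ (n : ℕ) (x : OnePoint ℂ), (Rf (L v))^[n] (φ x) = φ (f^[n] x) := fun n x =>
    iter_conj φ hφ n x
  have hup1 : ¬ Up (L v) := fun h =>
    hup (up_chart hd hch.cG hch.invL hch.invR (fun v h3 h4 => (hch.conj v h3 h4).2.2) hcop hdeg h)
  have hJS : ∀ x, x ∈ JS f → φ x ∈ JS (Rf (L v)) := fun x hx h =>
    hx ((Pool.Agent.H76.SU.fs_conj hch.bil hφ x).1 h)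
  have hJS1 : JS (Rf (L v)) = univ := by
    rw [eq_univ_iff_forall]
    intro y
    obtain ⟨x, rfl⟩ := φ.surjective y
    exact hJS x (hJa x)
  -- finite cycles
  have hfin : ∀ {q : OnePoint ℂ} {N : ℕ}, 1 ≤ N → f^[N] q = q → q ∉ Orb f p3 →
      ∀ i : ℕ, (Rf (L v))^[i] (φ q) ≠ OnePoint.infty := by
    intro q N hN hq h i he
    rw [hφn, ← fi] at he
    have h1 := φ.injective he
    exact orb_dis hN hq h i (h1 ▸ orb_self f p3)
  have hpq : ∀ {q : OnePoint ℂ} {N : ℕ}, f^[N] q = q → (Rf (L v))^[N] (φ q) = φ q := by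
    intro q N hq
    rw [hφn, hq]
  have n13 := sym c1 e1 c3 e3 n31
  have n23 := sym c2 e2 c3 e3 n32
  obtain ⟨y1, l1, k1, m1, z1⟩ := mk_cyc hd hcop1 hdeg1 hup1 (hJS _ b1) c1 (hpq e1) (hfin c1 e1 n13)
  obtain ⟨y2, l2, k2, m2, z2⟩ := mk_cyc hd hcop1 hdeg1 hup1 (hJS _ b2) c2 (hpq e2) (hfin c2 e2 n23)
  obtain ⟨x, m, k4, m4, z4⟩ := mk_cyc hd hcop1 hdeg1 hup1 (hJS _ b4) c4 (hpq e4) (hfin c4 e4 n43)
  obtain ⟨y5, l5, k5, m5, z5⟩ := mk_cyc hd hcop1 hdeg1 hup1 (hJS _ b5) c5 (hpq e5) (hfin c5 e5 n53)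
  -- the critical point
  obtain ⟨cc, hcc⟩ : ∃ cc : ℂ, (cc : OnePoint ℂ) = φ c := by
    apply OnePoint.ne_infty_iff_exists.1
    intro h
    rw [← fi] at h
    exact crit_nper c3 e3 hinf 0 0 (φ.injective h)
  -- the closed set
  obtain ⟨B, hB⟩ : ∃ B, B = PC f ∪ Orb f p1 ∪ Orb f p2 ∪ Orb f p3 := ⟨_, rfl⟩
  have hBc : IsClosed B := by
    rw [hB]
    exact (((pc_closed f).union (orb_fin c1 e1).isClosed).union (orb_fin c2 e2).isClosed).union
      (orb_fin c3 e3).isClosed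
  have hBf : ∀ x ∈ B, f x ∈ B := by
    intro x hx
    rw [hB] at hx ⊢
    rcases hx with ((hx | hx) | hx) | hx
    · exact Or.inl (Or.inl (Or.inl (pc_inv hf hx)))
    · exact Or.inl (Or.inl (Or.inr (orb_step hx)))
    · exact Or.inl (Or.inr (orb_step hx))
    · exact Or.inr (orb_step hx)
  have hPB : PC f ⊆ B := by
    rw [hB]
    exact fun x hx => Or.inl (Or.inl (Or.inl hx))
  have h1B : p1 ∈ B := by
    rw [hB]
    exact Or.inl (Or.inl (Or.inr (orb_self f p1)))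
  have h2B : p2 ∈ B := by
    rw [hB]
    exact Or.inl (Or.inr (orb_self f p2))
  have h3B : p3 ∈ B := by
    rw [hB]
    exact Or.inr (orb_self f p3)
  have h4B : p4 ∉ B := by
    rw [hB]
    rintro (((h | h) | h) | h)
    · exact a4 h
    · exact n41 h
    · exact n42 h
    · exact n43 h
  have hmemB : ∀ y, φ y ∈ φ '' B ↔ y ∈ B := fun y => φ.injective.mem_set_image
  have hsys : Sys0 (pol (L v).1) (pol (L v).2) (φ '' B) := by
    refine ⟨hcop1, by rw [hdeg1]; omega, φ.isClosed_image.2 hBc, ?_, ?_, ?_, ?_⟩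
    · rintro _ ⟨x, hx, rfl⟩
      exact ⟨f x, hBf x hx, (hφ x).symm⟩
    · intro y hy
      obtain ⟨y, rfl⟩ := φ.surjective y
      have h1 : IsCrit f y := (isCrit_conj φ hφ y).1 hy
      exact ⟨f y, hPB (pc_orb h1 (n := 1) le_rfl), (hφ y).symm⟩
    · exact ⟨p3, h3B, fi⟩
    · exact ⟨0, p1, h1B, f0⟩
  have hrd : Pool.Agent.H61.TT.RatD d (pol (L v).1) (pol (L v).2) := ⟨hd, hcop1, hdeg1⟩
  have hcrit1 : IsCrit (Rf (L v)) (cc : OnePoint ℂ) := by
    rw [hcc]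
    exact (isCrit_conj φ hφ c).2 hc
  have hval : (Rf (L v)) (cc : OnePoint ℂ) = φ (f c) := by
    rw [hcc]
    exact hφ c
  have hqc : (pol (L v).2).eval cc ≠ 0 := by
    intro h0
    have h1 := hval
    unfold Rf at h1
    rw [rat_coe, h0] at h1
    unfold pt at h1
    rw [if_pos rfl, ← fi] at h1
    exact crit_nper c3 e3 hinf 0 1 (φ.injective h1.symm)
  have hgg : ((Pool.Agent.H61.TT.gg (pol (L v).1) (pol (L v).2) cc : ℂ) : OnePoint ℂ) = φ (f c) := by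
    rw [← hval]
    unfold Rf
    rw [rat_coe_of_ne hqc]
    rfl
  -- the base point
  obtain ⟨c', hc'B, hfc'⟩ : ∃ c' : OnePoint ℂ, c' ∉ B ∧ f c' ∈ B := by
    classical
    have hBn : (Bᶜ).Nonempty := by
      obtain ⟨y, hy⟩ := hne (Orb f p1 ∪ Orb f p2 ∪ Orb f p3)
        (((orb_fin c1 e1).union (orb_fin c2 e2)).union (orb_fin c3 e3))
      refine ⟨y, fun h => hy ?_⟩
      rw [hB] at h
      rcases h with ((h | h) | h) | h
      · exact Or.inr h
      · exact Or.inl (Or.inl (Or.inl h))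
      · exact Or.inl (Or.inl (Or.inr h))
      · exact Or.inl (Or.inr h)
    obtain ⟨k, u, huB, hu⟩ := hcov _ hBc.isOpen_compl hBn p1
    have hex : ∃ k : ℕ, f^[k] u ∈ B := ⟨k, by rw [hu]; exact h1B⟩
    have hsp := Nat.find_spec hex
    have hmin : ∀ j < Nat.find hex, f^[j] u ∉ B := fun j hj => Nat.find_min hex hj
    rcases Nat.eq_zero_or_pos (Nat.find hex) with h0 | h0
    · rw [h0] at hsp
      exact absurd hsp huB
    · refine ⟨f^[Nat.find hex - 1] u, hmin _ (by omega), ?_⟩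
      rw [← Function.iterate_succ_apply' f]
      have h5 : (Nat.find hex - 1).succ = Nat.find hex := by omega
      rw [h5]
      exact hsp
  obtain ⟨c0, hc0⟩ : ∃ c0 : ℂ, (c0 : OnePoint ℂ) = φ c' := by
    apply OnePoint.ne_infty_iff_exists.1
    intro h
    rw [← fi] at h
    exact hc'B (φ.injective h ▸ h3B)
  -- the two parts
  obtain ⟨B2, hB2⟩ : ∃ B2, B2 = P2 ∪ Orb f p1 ∪ Orb f p2 ∪ Orb f p3 := ⟨_, rfl⟩
  have hBB : B = P1 ∪ B2 := by
    rw [hB, hB2, ← hun]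
    simp only [union_assoc]
  have hP1c : ∀ y ∈ P1, y ∈ PC f := fun y hy => hun ▸ Or.inl hy
  have hd12 : ∀ y ∈ P1, y ∉ B2 := by
    intro y hy
    rw [hB2]
    rintro (((h | h) | h) | h)
    · exact disjoint_left.1 h12 hy h
    · exact hoffP c1 e1 a1 y h (hP1c y hy)
    · exact hoffP c2 e2 a2 y h (hP1c y hy)
    · exact hoffP c3 e3 a3 y h (hP1c y hy)
  have hB2c : IsClosed B2 := by
    rw [hB2]
    exact ((h2.union (orb_fin c1 e1).isClosed).union (orb_fin c2 e2).isClosed).union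
      (orb_fin c3 e3).isClosed
  have hK1 : ((↑) : ℂ → OnePoint ℂ) '' {u : ℂ | (u : OnePoint ℂ) ∈ φ '' P1} = φ '' P1 := by
    ext y
    constructor
    · rintro ⟨u, hu, rfl⟩
      exact hu
    · intro hy
      have hyi : y ≠ OnePoint.infty := by
        intro h
        rw [h, ← fi, φ.injective.mem_set_image] at hy
        exact a3 (hP1c _ hy)
      obtain ⟨u, hu⟩ := OnePoint.ne_infty_iff_exists.1 hyi
      exact ⟨u, by rw [mem_ofPred_eq, hu]; exact hy, hu⟩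
  have key1 : ∀ l : ℂ, 1 < ‖l‖ → l ≠ 1 := by
    rintro l hl rfl
    rw [norm_one] at hl
    exact lt_irrefl _ hl
  have key2 : ∀ {q q' : OnePoint ℂ} {a b : ℂ}, (a : OnePoint ℂ) = φ q → (b : OnePoint ℂ) = φ q' →
      q ≠ q' → a ≠ b := by
    rintro q q' a b ha hb hne rfl
    exact hne (φ.injective (ha.symm.trans hb))
  have key3 : ∀ {q : OnePoint ℂ} {N : ℕ} {y : ℕ → ℂ}, 1 ≤ N → f^[N] q = q → q ∉ Orb f p4 →
      (∀ i, (y i : OnePoint ℂ) = (Rf (L v))^[i] (φ q)) → ∀ i, y i ≠ x 0 := by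
    intro q N y hN hq hne hy i he
    have h1 := hy i
    rw [he, z4 0] at h1
    have h1' : φ p4 = φ (f^[i] q) := by
      rw [← hφn i q]
      exact h1
    have h2 : p4 = f^[i] q := φ.injective h1'
    exact orb_dis hN hq hne i (h2 ▸ orb_self f p4)
  have hvb : Pool.Agent.H1.PU.VB (L v) (x 0) := by
    refine Pool.Agent.H64.PC.vb hd hcop1 hdeg1 hup1 c4 k4 m4 (n := ![N1, N2, N5]) (y := ![y1, y2, y5])
      (l := ![l1, l2, l5]) ?_ ?_ ?_ ?_ ?_
    · intro j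
      fin_cases j
      · exact c1
      · exact c2
      · exact c5
    · intro j
      fin_cases j
      · exact k1
      · exact k2
      · exact k5
    · intro j
      fin_cases j
      · exact key1 _ m1
      · exact key1 _ m2
      · exact key1 _ m5
    · intro i j hij
      fin_cases i <;> fin_cases j <;>
        simp only [ne_eq, Fin.zero_eta, Fin.mk_one, Fin.reduceFinMk, not_true_eq_false] at hij ⊢
      · exact key2 (z1 0) (z2 0) (ne_of n21).symm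
      · exact key2 (z1 0) (z5 0) (ne_of n51).symm
      · exact key2 (z2 0) (z1 0) (ne_of n21)
      · exact key2 (z2 0) (z5 0) (ne_of n52).symm
      · exact key2 (z5 0) (z1 0) (ne_of n51)
      · exact key2 (z5 0) (z2 0) (ne_of n52)
    · intro j i _
      fin_cases j
      · exact key3 c1 e1 (sym c1 e1 c4 e4 n41) z1 i
      · exact key3 c2 e2 (sym c2 e2 c4 e4 n42) z2 i
      · exact key3 c5 e5 n54 z5 i
  refine ⟨L v, φ '' B, cc, c0, {u : ℂ | (u : OnePoint ℂ) ∈ φ '' P1}, φ '' B2, N4, x, m, ?_⟩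
  refine { rd := hrd, sys := hsys, pa := ?_, K1c := ?_, P2c := φ.isClosed_image.2 hB2c, dis := ?_,
           i0 := ?_, i1 := ?_, ii := ?_, cK := ?_, orb := ?_, crt := ⟨?_, ?_, ?_, ?_, ?_⟩, c0PA := ?_,
           fc0 := ?_, jp := ?_, hp := c4, cyc := k4, rep := m4, xPA := ?_, vb := hvb }
  · rw [hK1, hBB, image_union]
  · rw [OnePoint.isOpenEmbedding_coe.isInducing.isCompact_iff, hK1]
    exact (φ.isClosed_image.2 h1).isCompact
  · rintro u ⟨y, hy, hyu⟩ ⟨z, hz, hzu⟩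
    have h3 : y = z := φ.injective (hyu.trans hzu.symm)
    exact hd12 y hy (h3 ▸ hz)
  · refine ⟨p1, ?_, f0⟩
    rw [hB2]
    exact Or.inl (Or.inl (Or.inr (orb_self f p1)))
  · refine ⟨p2, ?_, f1⟩
    rw [hB2]
    exact Or.inl (Or.inr (orb_self f p2))
  · refine ⟨p3, ?_, fi⟩
    rw [hB2]
    exact Or.inr (orb_self f p3)
  · show (cc : OnePoint ℂ) ∈ φ '' P1
    rw [hcc]
    exact ⟨c, hc1, rfl⟩
  · intro n hn
    show (Rf (L v))^[n] (cc : OnePoint ℂ) ∈ φ '' B2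
    rw [hcc, hφn, hB2]
    exact ⟨_, Or.inl (Or.inl (Or.inl (hc2 n hn))), rfl⟩
  · exact crit_coe hcrit1
  · intro i j hij
    show (Rf (L v))^[i] (cc : OnePoint ℂ) ≠ (Rf (L v))^[j] (cc : OnePoint ℂ)
    rw [hcc, hφn, hφn]
    exact fun h => hinf i j hij (φ.injective h)
  · intro h0
    rw [h0, ← f0] at hgg
    exact crit_nper c1 e1 hinf 0 1 (φ.injective hgg.symm)
  · intro h0
    rw [h0, ← f1] at hgg
    exact crit_nper c2 e2 hinf 0 1 (φ.injective hgg.symm)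
  · intro i j h
    have h1 : (Rf (L v))^[i] (cc : OnePoint ℂ) = (Rf (L v))^[j] OnePoint.infty := h
    rw [hcc, ← fi, hφn, hφn] at h1
    exact crit_nper c3 e3 hinf j i (φ.injective h1)
  · rw [hc0, hmemB]
    exact hc'B
  · show Rf (L v) (c0 : OnePoint ℂ) ∈ φ '' B
    rw [hc0, hφ, hmemB]
    exact hfc'
  · rw [← hJS1]
    exact Pool.Agent.H1.PU.jp_of hrd (hJS1 ▸ mem_univ _)
  · rw [z4 0]
    show φ p4 ∉ φ '' B
    rw [hmemB]
    exact h4B

end Pool.Agent.H42.PR
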