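import Pool.Agent.H31.PP.Defs
import Pool.Agent.H31.PP.VeG

/-!
# THEOREM P+, case J = sphere: the planar data

`SP`: `f = P / Q` in a chart, `PA` = (post-critical set and three cycles, which contain `0`, `1`, `∞`) = `K1` (planar part which contains the critical point `c`) and `P2` (contains the orbit of the critical value and the marks).
`c0`: the base point, `c0 ∉ PA`, `f c0 ∈ PA`. `x 0`: a point on a repelling cycle off `PA` with bounded velocities `VB`. `jp` with `J = univ`: every disc is mapped onto the sphere by an iterate.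
-/

set_option autoImplicit false

open Filter Topology Polynomial OnePoint Metric Set MeasureTheory

namespace Pool.Agent.H42.PR

open Pool.Agent.H44.Fatou Pool.Agent.H32.BT Pool.Agent.H80.AJ Pool.Agent.H35.EX Pool.Agent.H61.TT
open Pool.Agent.H79.Eul Pool.Agent.H79.Par Pool.Agent.H47.NN Pool.Agent.H1.PU Pool.Agent.H71.Top
open Pool.Agent.H31.PP

/-- the planar data in the case J = sphere -/
structure SP {d : ℕ} (v : E d) (PA : Set (OnePoint ℂ)) (c c0 : ℂ) (K1 : Set ℂ)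
    (P2 : Set (OnePoint ℂ)) (p : ℕ) (x : ℕ → ℂ) (m : ℂ) : Prop where
  rd : RatD d (pol v.1) (pol v.2)
  sys : Sys0 (pol v.1) (pol v.2) PA
  pa : PA = ((↑) : ℂ → OnePoint ℂ) '' K1 ∪ P2
  K1c : IsCompact K1
  P2c : IsClosed P2
  dis : ∀ u ∈ K1, (u : OnePoint ℂ) ∉ P2
  i0 : ((0 : ℂ) : OnePoint ℂ) ∈ P2
  i1 : ((1 : ℂ) : OnePoint ℂ) ∈ P2
  ii : (∞ : OnePoint ℂ) ∈ P2
  cK : c ∈ K1
  orb : ∀ n : ℕ, 1 ≤ n → (rat (pol v.1) (pol v.2))^[n] (c : OnePoint ℂ) ∈ P2
  crt : Crt (pol v.1) (pol v.2) c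
  c0PA : (c0 : OnePoint ℂ) ∉ PA
  fc0 : rat (pol v.1) (pol v.2) (c0 : OnePoint ℂ) ∈ PA
  jp : JP (pol v.1) (pol v.2) c0 univ
  hp : 0 < p
  cyc : Cyc (pol v.1) (pol v.2) p x m
  rep : 1 < ‖m‖
  xPA : (x 0 : OnePoint ℂ) ∉ PA
  vb : VB v (x 0)

end Pool.Agent.H42.PR
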