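import Pool.Agent.H42.PR.SPD
import Pool.Agent.H1.PU.Unb

/-!
# [H42 PR VmS] markers: preimages of the point `x 0` of the repelling cycle

PROOFS. `orb_b`: copy of `vip_orb` (H1/PU/Vip; private there) or `orb_seq` (H1/PU/Main; private there): every point of the orbit of `b` comes back to `x 0 ∉ PA`, so it is not in `PA` (`iter_mem`, `h.sys.inv`), in particular finite (`h.sys.inf`), and without critical points (their images are in `PA`: `h.sys.crit`, `crit_of_wr`).
The orbit has at most `j + p` points (`per`).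
`vm_s`: given `w, Ξ` let `C` be the constant of `h.vb w`. Given `k, z` with `z k = b`: let `y` be the orbit of `b` (`orb_b`), `z' i = if i < k then z i else y (i - k)`; `z' k = b`, `z' (k + j) = x 0`, the recursion holds for all `i`. `h.vb`: `u` with the recursion for all `i` and `‖u i‖ ≤ C (1 + ‖z' i‖^2)`.
`per_of_bd` (H1/PU/Main, private: copy) for the orbit `y` (`Prep (pol v.1) (pol v.2) j p y`) and `i ↦ u (k + i)` with `η` the numerator of `xi v w` (`xi v w z = η z / Q z ^ 2`, see `xi_surj`, H61/TT/Surj, or the definition of `xi`, H79/Par; if it is easier, copy `per_of_bd` with `xi v w` in place of `η / Q ^ 2`): `u (k + i + p) = u (k + i)` for `i ≥ j`.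
`Ξ (y i)` satisfies the same recursion (`y i ∈ S` by `hS`; `hΞ`), so `δ i = u (k + i) - Ξ (y i)` satisfies `δ (i + 1) = dg (y i) * δ i` and `δ (j + p) = δ j`: `prep_zero` (H1/PU/Unb): `δ 0 = 0`, `u k = Ξ b`.
-/

set_option autoImplicit false

open Filter Topology Polynomial OnePoint Metric Set MeasureTheory

namespace Pool.Agent.H42.PR

open Pool.Agent.H44.Fatou Pool.Agent.H32.BT Pool.Agent.H80.AJ Pool.Agent.H35.EX Pool.Agent.H61.TT
open Pool.Agent.H79.Eul Pool.Agent.H79.Par Pool.Agent.H47.NN Pool.Agent.H1.PU Pool.Agent.H71.Top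
open Pool.Agent.H31.PP

variable {d : ℕ} {v : E d} {PA : Set (OnePoint ℂ)} {c c0 : ℂ} {K1 : Set ℂ} {P2 : Set (OnePoint ℂ)}
  {p : ℕ} {x : ℕ → ℂ} {m : ℂ}

private theorem vms_cyc {P Q : Polynomial ℂ} {p : ℕ} {x : ℕ → ℂ} {m : ℂ} (h : Cyc P Q p x m) :
    ∀ i ≤ p, (rat P Q)^[i] ((x 0 : ℂ) : OnePoint ℂ) = ((x i : ℂ) : OnePoint ℂ) := by
  intro i
  induction i with
  | zero => intro _; rfl
  | succ i ih =>
    intro hi
    rw [Function.iterate_succ_apply', ih (by omega), Pool.Agent.H44.Fatou.rat_coe_of_ne (h.ne i (by omega)),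
      h.step i (by omega)]

/-- bounded velocities are periodic on the cycle -/
private theorem vms_per {P Q : Polynomial ℂ} {z u : ℕ → ℂ} {n0 N : ℕ} {g : ℂ → ℂ} (hz : Prep P Q n0 N z)
    (hu : ∀ i, u (i + 1) = Pool.Agent.H61.TT.dg P Q (z i) * u i + g (z i)) {C : ℝ}
    (hC : ∀ i, ‖u i‖ ≤ C * (1 + ‖z i‖ ^ 2)) : ∀ i, n0 ≤ i → u (i + N) = u i := by
  obtain ⟨δ, hδ⟩ : ∃ δ : ℕ → ℂ, δ = fun i => u (n0 + i + N) - u (n0 + i) := ⟨_, rfl⟩
  have hstep : ∀ i, δ (i + 1) = Pool.Agent.H61.TT.dg P Q (z (n0 + i)) * δ i := by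
    intro i
    have h1 := hu (n0 + i + N)
    have h2 := hu (n0 + i)
    rw [hz.per (n0 + i) (by omega)] at h1
    simp only [hδ]
    rw [show n0 + (i + 1) + N = n0 + i + N + 1 by ring, show n0 + (i + 1) = n0 + i + 1 by ring, h1, h2]
    ring
  have hprod : ∀ i m, δ (i + m) = (∏ j ∈ Finset.range m, Pool.Agent.H61.TT.dg P Q (z (n0 + i + j))) * δ i := by
    intro i m
    induction m with
    | zero => simp
    | succ m ih =>
      rw [← Nat.add_assoc, hstep, ih, Finset.prod_range_succ, ← Nat.add_assoc]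
      ring
  obtain ⟨μ, hμ⟩ : ∃ μ, μ = ∏ i ∈ Finset.range N, Pool.Agent.H61.TT.dg P Q (z (n0 + i)) := ⟨_, rfl⟩
  have hμ1 : 1 < ‖μ‖ := by rw [hμ]; exact hz.rep
  have hzper : ∀ t i, z (n0 + (N * t + i)) = z (n0 + i) := by
    intro t
    induction t with
    | zero => intro i; simp
    | succ t ih =>
      intro i
      rw [show n0 + (N * (t + 1) + i) = n0 + (N * t + i) + N by ring, hz.per _ (by omega)]
      exact ih i
  have hpow : ∀ t, δ (N * t) = μ ^ t * δ 0 := by
    intro t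
    induction t with
    | zero => simp
    | succ t ih =>
      rw [Nat.mul_succ, hprod, ih]
      have h1 : ∏ j ∈ Finset.range N, Pool.Agent.H61.TT.dg P Q (z (n0 + N * t + j)) = μ := by
        rw [hμ]
        refine Finset.prod_congr rfl fun j _ => ?_
        rw [Nat.add_assoc, hzper]
      rw [h1]
      ring
  have hbd : ∀ t, ‖δ (N * t)‖ ≤ 2 * (C * (1 + ‖z n0‖ ^ 2)) := by
    intro t
    simp only [hδ]
    have h1 := hC (n0 + N * t + N)
    have h2 := hC (n0 + N * t)
    have h3 : z (n0 + N * t) = z n0 := by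
      have := hzper t 0
      simpa using this
    rw [hz.per _ (by omega), h3] at h1
    rw [h3] at h2
    calc ‖u (n0 + N * t + N) - u (n0 + N * t)‖ ≤ ‖u (n0 + N * t + N)‖ + ‖u (n0 + N * t)‖ := norm_sub_le _ _
      _ ≤ 2 * (C * (1 + ‖z n0‖ ^ 2)) := by linarith
  have h0 : δ 0 = 0 := by
    by_contra hne
    have hpos : 0 < ‖δ 0‖ := norm_pos_iff.2 hne
    obtain ⟨t, ht⟩ := pow_unbounded_of_one_lt (2 * (C * (1 + ‖z n0‖ ^ 2)) / ‖δ 0‖) hμ1
    rw [div_lt_iff₀ hpos] at ht
    have h1 := hbd t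
    rw [hpow, norm_mul, norm_pow] at h1
    linarith
  have hall : ∀ i, δ i = 0 := by
    intro i
    induction i with
    | zero => exact h0
    | succ i ih => rw [hstep, ih, mul_zero]
  intro i hi
  obtain ⟨j, rfl⟩ := Nat.exists_eq_add_of_le hi
  have h1 := hall j
  simp only [hδ] at h1
  exact sub_eq_zero.1 h1

theorem orb_b (h : SP v PA c c0 K1 P2 p x m) {b : ℂ} {j : ℕ}
    (hb : (rat (pol v.1) (pol v.2))^[j] (b : OnePoint ℂ) = (x 0 : OnePoint ℂ)) :
    ∃ y : ℕ → ℂ, Prep (pol v.1) (pol v.2) j p y ∧ y 0 = b ∧ y j = x 0 ∧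
      (∀ i, (rat (pol v.1) (pol v.2))^[i] (b : OnePoint ℂ) = ((y i : ℂ) : OnePoint ℂ)) ∧
      (∀ i, ((y i : ℂ) : OnePoint ℂ) ∉ PA) ∧ (range y).Finite := by
  set f := rat (pol v.1) (pol v.2) with hf
  have hxp : f^[p] ((x 0 : ℂ) : OnePoint ℂ) = ((x 0 : ℂ) : OnePoint ℂ) := by
    rw [vms_cyc h.cyc p le_rfl, h.cyc.per]
  have hxk : ∀ k : ℕ, f^[k * p] ((x 0 : ℂ) : OnePoint ℂ) = ((x 0 : ℂ) : OnePoint ℂ) := by
    intro k
    induction k with
    | zero => simp
    | succ k ih => rw [Nat.succ_mul, Function.iterate_add_apply, hxp, ih]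
  have hback : ∀ i, ∃ l, f^[l] (f^[i] (b : OnePoint ℂ)) = ((x 0 : ℂ) : OnePoint ℂ) := by
    intro i
    have h1 : i ≤ j + i * p := by
      have := Nat.le_mul_of_pos_right i h.hp
      omega
    refine ⟨j + i * p - i, ?_⟩
    rw [← Function.iterate_add_apply, Nat.sub_add_cancel h1, Nat.add_comm j, Function.iterate_add_apply,
      hb, hxk]
  have hPA : ∀ i, f^[i] (b : OnePoint ℂ) ∉ PA := by
    intro i hi
    obtain ⟨l, hl⟩ := hback i
    apply h.xPA
    rw [← hl]
    exact iter_mem h.sys.inv hi l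
  have hfin : ∀ i, ∃ z : ℂ, f^[i] (b : OnePoint ℂ) = (z : OnePoint ℂ) := by
    intro i
    have h1 : f^[i] (b : OnePoint ℂ) ≠ ∞ := by
      intro h1
      apply hPA i
      rw [h1]
      exact h.sys.inf
    obtain ⟨z, hz⟩ := OnePoint.ne_infty_iff_exists.1 h1
    exact ⟨z, hz.symm⟩
  choose z hz using hfin
  have hq : ∀ i, (pol v.2).eval (z i) ≠ 0 := by
    intro i h0
    have h1 := hz (i + 1)
    rw [Function.iterate_succ_apply', hz i, hf, Pool.Agent.H44.Fatou.rat_coe, h0] at h1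
    unfold Pool.Agent.H44.Fatou.pt at h1
    rw [if_pos rfl] at h1
    exact OnePoint.infty_ne_coe _ h1
  have hst : ∀ i, gg (pol v.1) (pol v.2) (z i) = z (i + 1) := by
    intro i
    have h1 := hz (i + 1)
    rw [Function.iterate_succ_apply', hz i, hf, Pool.Agent.H44.Fatou.rat_coe_of_ne (hq i)] at h1
    exact OnePoint.coe_injective h1
  have hz0 : z 0 = b := by
    have h1 := hz 0
    exact (OnePoint.coe_injective h1).symm
  have hzn : z j = x 0 := by
    have h1 := hz j
    rw [hb] at h1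
    exact (OnePoint.coe_injective h1).symm
  have hzc : ∀ i, i ≤ p → z (j + i) = x i := by
    intro i hi
    have h1 := hz (j + i)
    rw [Nat.add_comm, Function.iterate_add_apply, hb, vms_cyc h.cyc i hi, Nat.add_comm] at h1
    exact (OnePoint.coe_injective h1).symm
  have hper : ∀ i, j ≤ i → z (i + p) = z i := by
    intro i hi
    have h1 : f^[i + p] (b : OnePoint ℂ) = f^[i] (b : OnePoint ℂ) := by
      obtain ⟨l, rfl⟩ := Nat.exists_eq_add_of_le hi
      rw [show j + l + p = l + (p + j) by omega, Function.iterate_add_apply,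
        Function.iterate_add_apply f p j, hb, hxp, Nat.add_comm j l, Function.iterate_add_apply, hb]
    rw [hz, hz] at h1
    exact OnePoint.coe_injective h1
  refine ⟨z, ⟨h.hp, hq, hst, ?_, hper, ?_⟩, hz0, hzn, hz, ?_, ?_⟩
  · intro i h0
    have h1 : (ww (pol v.1) (pol v.2)).eval (z i) = 0 := by
      unfold Pool.Agent.H61.TT.dg at h0
      rcases div_eq_zero_iff.1 h0 with h2 | h2
      · exact h2
      · exact absurd h2 (pow_ne_zero 2 (hq i))
    have h2 : IsCrit f ((z i : ℂ) : OnePoint ℂ) := crit_of_wr h.sys.cop h.sys.deg h1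
    have h3 := h.sys.crit _ h2
    refine hPA (i + 1) ?_
    rw [Function.iterate_succ_apply', hz i]
    exact h3
  · have h1 : ∏ i ∈ Finset.range p, Pool.Agent.H61.TT.dg (pol v.1) (pol v.2) (z (j + i)) = m := by
      rw [← h.cyc.mul]
      refine Finset.prod_congr rfl fun i hi => ?_
      rw [hzc i (Finset.mem_range.1 hi).le]
      rfl
    rw [h1]
    exact h.rep
  · intro i
    rw [← hz i]
    exact hPA i
  · have hall : ∀ i, ∃ l, l < j + p ∧ z i = z l := by
      intro i
      induction i using Nat.strong_induction_on with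
      | _ i ih =>
        by_cases hi : i < j + p
        · exact ⟨i, hi, rfl⟩
        · have hp := h.hp
          obtain ⟨l, hl, hl2⟩ := ih (i - p) (by omega)
          refine ⟨l, hl, ?_⟩
          rw [← hl2]
          have h1 := hper (i - p) (by omega)
          rwa [show i - p + p = i by omega] at h1
    refine ((Set.finite_Iio (j + p)).image z).subset ?_
    rintro _ ⟨i, rfl⟩
    obtain ⟨l, hl, hl2⟩ := hall i
    exact ⟨l, hl, hl2.symm⟩

theorem vm_s (h : SP v PA c c0 K1 P2 p x m) {S : Set ℂ}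
    (hS : ∀ a ∈ S, (pol v.2).eval a ≠ 0 → gg (pol v.1) (pol v.2) a ∈ S) {b : ℂ} (hbS : b ∈ S) {j : ℕ}
    (hb : (rat (pol v.1) (pol v.2))^[j] (b : OnePoint ℂ) = (x 0 : OnePoint ℂ)) : VM v S b := by
  intro w Ξ hΞ
  obtain ⟨C, hC⟩ := h.vb w
  obtain ⟨y, hy, hy0, hyj, -, -, -⟩ := orb_b h hb
  refine ⟨C, fun k z hz hzk => ?_⟩
  obtain ⟨z', hz'⟩ : ∃ z' : ℕ → ℂ, z' = fun i => if i < k then z i else y (i - k) := ⟨_, rfl⟩
  have hz1 : ∀ i, i < k → z' i = z i := fun i hi => by rw [hz']; exact if_pos hi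
  have hz2 : ∀ i, z' (k + i) = y i := by
    intro i
    rw [hz']
    simp only
    rw [if_neg (by omega), Nat.add_sub_cancel_left]
  have hz3 : ∀ i, i ≤ k → z' i = z i := by
    intro i hi
    rcases lt_or_eq_of_le hi with h1 | rfl
    · exact hz1 i h1
    · have h1 := hz2 0
      rw [Nat.add_zero] at h1
      rw [h1, hy0, hzk]
  have hrec : ∀ i, (pol v.2).eval (z' i) ≠ 0 ∧ z' (i + 1) = gg (pol v.1) (pol v.2) (z' i) := by
    intro i
    by_cases hi : i < k
    · rw [hz1 i hi, hz3 (i + 1) (by omega)]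
      exact hz i hi
    · obtain ⟨l, rfl⟩ := Nat.exists_eq_add_of_le (not_lt.1 hi)
      rw [hz2 l, Nat.add_assoc, hz2 (l + 1)]
      exact ⟨hy.ne l, (hy.st l).symm⟩
  obtain ⟨u, hu1, hu2⟩ := hC (k + j) z' hrec (by rw [hz2, hyj])
  have hv1 : ∀ i, (fun i => u (k + i)) (i + 1) =
      Pool.Agent.H61.TT.dg (pol v.1) (pol v.2) (y i) * (fun i => u (k + i)) i + xi v w (y i) := by
    intro i
    have h1 := hu1 (k + i)
    rw [hz2 i] at h1
    exact h1
  have hv2 : ∀ i, ‖(fun i => u (k + i)) i‖ ≤ C * (1 + ‖y i‖ ^ 2) := by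
    intro i
    have h1 := hu2 (k + i)
    rw [hz2 i] at h1
    exact h1
  have hv3 := vms_per hy hv1 hv2
  have hyS : ∀ i, y i ∈ S := by
    intro i
    induction i with
    | zero => rw [hy0]; exact hbS
    | succ i ih =>
      rw [← hy.st i]
      exact hS _ ih (hy.ne i)
  have hd : (fun i => u (k + i) - Ξ (y i)) 0 = 0 := by
    refine prep_zero hy (δ := fun i => u (k + i) - Ξ (y i)) ?_ ?_
    · intro i
      have h1 := hv1 i
      have h2 := hΞ (y i) (hyS i) (hy.ne i)
      rw [hy.st i] at h2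
      simp only at h1 ⊢
      rw [h1, h2]
      ring
    · have h1 : u (k + (j + p)) = u (k + j) := hv3 j le_rfl
      have h2 : u (k + (j + p)) - Ξ (y (j + p)) = u (k + j) - Ξ (y j) := by
        rw [h1, hy.per j le_rfl]
      exact h2
  refine ⟨u, ?_, ?_, ?_⟩
  · simp only [Nat.add_zero] at hd
    rw [sub_eq_zero.1 hd, hy0]
  · intro i hi
    have h1 := hu1 i
    rw [hz1 i hi] at h1
    exact h1
  · have h1 := hu2 0
    rw [hz3 0 (Nat.zero_le _)] at h1
    exact h1

end Pool.Agent.H42.PR
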